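import Pool.Agent.H223.CL.Loc

set_option autoImplicit false
set_option linter.unusedSectionVars false

namespace Pool.Agent.H223.CL

open Pool.Agent.H721R2 Pool.Agent.H721R2.CSys Pool.Agent.H789R2.AN Filter Topology
open Pool.Agent.H223.CE Pool.Agent.H223.PG

variable {M X Γ : Type*} [MetricSpace M] [MetricSpace X] {P : X → M} {r ρ : ℝ}

theorem ucont_continuous {G : X → X} (h : UCont G) : Continuous G := by
  rw [Metric.continuous_iff]
  intro b ε hε
  obtain ⟨δ, hδ, h1⟩ := h ε hε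
  exact ⟨δ, hδ, fun a hab => h1 a b hab⟩

theorem asU_shift {Y : Type*} [MetricSpace Y] (g : Y ≃ Y) {a b : Y} (m : ℕ)
    (h : As g.symm a b) : As g.symm (g^[m] a) (g^[m] b) := by
  apply as_of_shift m
  rw [eq_symm_iter_iter, eq_symm_iter_iter]
  exact h

/-- the tube around a properly embedded unstable leaf -/
theorem bp_local {H : Sheets P r ρ} (T : CSys (LX H)) {G : X ≃ X} (hTg : T.g = lmap H G)
    (hTρ : T.εs < ρ) (hsm : ∀ a b : LX H, dist a b ≤ T.εs → dist a.val b.val ≤ 1)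
    (hu' : UCont G.symm) (hpp : PP T G) {s : ℝ}
    (hsT : ∀ a b : X, dist a b < s → dist (⟨a⟩ : LX H) ⟨b⟩ ≤ T.δ / 8)
    (r' ε' : ℝ) (hε' : 0 < ε') (x0 : X) : ∃ σ > 0, ∃ m : ℕ, ∀ (k : ℕ) (c : ℕ → X),
    dist x0 (c 0) < σ → (∀ i < k, ∀ l : ℕ, dist (G.symm^[l] (c i)) (G.symm^[l] (c (i + 1))) < s) →
    (∀ i ≤ k, dist (c 0) (c i) ≤ r') →
    ∀ l ≥ m, dist (G.symm^[l] (c 0)) (G.symm^[l] (c k)) ≤ ε' := by
  have hTg' : T.g.symm = lmap H G.symm := by rw [hTg]; rfl
  have hδ0 := T.δ_pos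
  have hδε := T.δ_le_εs
  have h36 := T.e36
  have hKδ := T.Kδ_pos
  have hK := T.one_le_K
  have hK0 : 0 < T.K := by linarith
  have hδρ : T.δ < ρ := lt_of_le_of_lt hδε hTρ
  have hit : ∀ (n : ℕ) (a : X), (T.g.symm^[n] (⟨a⟩ : LX H)) = ⟨G.symm^[n] a⟩ := by
    intro n a
    rw [hTg']
    exact LX.ext (lmap_iter H G.symm n ⟨a⟩)
  obtain ⟨n0, hn0⟩ := hpp x0 (r' + 2)
  obtain ⟨k8, hk8⟩ := exists_beta T (show 0 < T.δ / 8 by linarith)
  set n := n0 + k8 with hn
  have hlev : ∀ y, As G.symm x0 y → dist x0 y ≤ r' + 2 →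
      FRel T.g.symm (T.δ / 8) (T.g.symm^[n] (⟨x0⟩ : LX H)) (T.g.symm^[n] ⟨y⟩) := by
    intro y h1 h2
    have h3 := hn0 y h1 h2
    have h4 := T.shrinkU hδε h3 (h3.dist_le.trans hδε) k8
    rw [← Function.iterate_add_apply, ← Function.iterate_add_apply, Nat.add_comm k8 n0] at h4
    exact h4.mono (hk8 k8 le_rfl)
  clear_value n
  set θ := T.δ / (144 * T.K) with hθ
  have hθ0 : 0 < θ := by positivity
  have hθδ : θ ≤ T.δ / 144 := by
    rw [hθ]
    apply div_le_div_of_nonneg_left hδ0.le (by norm_num)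
    linarith
  have hKθ : 9 * T.K * θ = T.δ / 16 := by
    rw [hθ]; field_simp; norm_num
  obtain ⟨j, hj⟩ := exists_beta T (half_pos hθ0)
  obtain ⟨s1, hs1, hs1T⟩ := toLX H (half_pos hθ0) (by linarith : θ / 2 < ρ)
  obtain ⟨σ, hσ, hσ1⟩ := hu'.iters (n + j) s1 hs1
  obtain ⟨ε1, hε1, -, hε1X⟩ := ofLX H hε'
  obtain ⟨k1, hk1⟩ := exists_beta T hε1
  refine ⟨min σ 1, lt_min hσ one_pos, n + k1, fun k c hc0 hstep hball l hl => ?_⟩
  have hx0c : dist x0 (c 0) < σ := lt_of_lt_of_le hc0 (min_le_left _ _)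
  have hx0c1 : dist x0 (c 0) < 1 := lt_of_lt_of_le hc0 (min_le_right _ _)
  have hcl : ∀ i ≤ n + j, dist (T.g.symm^[i] (⟨x0⟩ : LX H)) (T.g.symm^[i] ⟨c 0⟩) ≤ θ / 2 := by
    intro i hi
    rw [hit, hit]
    exact hs1T _ _ (hσ1 i hi _ _ hx0c)
  have hst : ∀ i < k, FRel T.g.symm (T.δ / 8) (⟨c i⟩ : LX H) ⟨c (i + 1)⟩ := by
    intro i hi l
    rw [hit, hit]
    exact hsT _ _ (hstep i hi l)
  have claim : ∀ i ≤ k, FRel T.g.symm (T.δ / 4) (T.g.symm^[n] (⟨c 0⟩ : LX H))
      (T.g.symm^[n] ⟨c i⟩) := by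
    intro i
    induction i with
    | zero => intro _; exact FRel.refl (by linarith) _
    | succ i ih =>
      intro hi
      have h1 := ih (by omega)
      have h2 := (hst i (by omega)).iter n
      have h3 := h1.trans h2
      set C0 := T.g.symm^[n] (⟨c 0⟩ : LX H) with hC0
      set C1 := T.g.symm^[n] (⟨c (i + 1)⟩ : LX H) with hC1
      set X0 := T.g.symm^[n] (⟨x0⟩ : LX H) with hX0
      have h4 : dist (T.g.symm^[j] X0) (T.g.symm^[j] C0) ≤ θ / 2 := by
        have h5 := hcl (n + j) le_rfl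
        rw [Nat.add_comm n j, Function.iterate_add_apply, Function.iterate_add_apply] at h5
        exact h5
      have h5 : dist (T.g.symm^[j] C0) (T.g.symm^[j] C1) ≤ θ / 2 := by
        have h6 := T.shrinkU (by linarith) h3 (h3.dist_le.trans (by linarith : _ ≤ T.εs)) j
        exact h6.dist_le.trans (hj j le_rfl)
      have h6 : dist (T.g.symm^[j] C1) (T.g.symm^[j] X0) ≤ θ := by
        have := dist_triangle (T.g.symm^[j] X0) (T.g.symm^[j] C0) (T.g.symm^[j] C1)
        rw [dist_comm]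
        linarith
      obtain ⟨b, hb1, hb2⟩ := T.lp _ _ (h6.trans (by linarith : θ ≤ 2 * T.δ))
      have h16 : 9 * T.K * dist (T.g.symm^[j] C1) (T.g.symm^[j] X0) ≤ T.δ / 16 := by
        rw [← hKθ]
        exact mul_le_mul_of_nonneg_left h6 (by linarith)
      have hb1' := (hb1.mono h16).iter j
      rw [eq_iter_symm_iter] at hb1'
      have hb3 := hb1'.iter n
      rw [hC1, eq_iter_symm_iter] at hb3
      set y := T.g^[n] (T.g^[j] b) with hy
      have hy1 : As T.g.symm (⟨x0⟩ : LX H) y := by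
        have h7 := asU_of_frel T (by linarith : T.δ / 16 ≤ T.εs) (hb2.mono h16)
        have h8 := asU_shift T.g n (asU_shift T.g j h7)
        rw [eq_iter_symm_iter, hX0, eq_iter_symm_iter] at h8
        exact h8.symm
      have hy2 : As G.symm x0 y.val := by
        rw [hTg'] at hy1
        exact as_of_lx H hy1
      have hy3 : dist (c (i + 1)) y.val ≤ 1 :=
        hsm (⟨c (i + 1)⟩ : LX H) y (hb3.dist_le.trans (by linarith))
      have hy4 : dist x0 y.val ≤ r' + 2 := by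
        have e1 := dist_triangle4 x0 (c 0) (c (i + 1)) y.val
        have e2 := hball (i + 1) hi
        linarith
      have h7 := (hlev y.val hy2 hy4).dist_le
      have h8 : T.g.symm^[n] (⟨y.val⟩ : LX H) = T.g^[j] b := by
        show T.g.symm^[n] y = _
        rw [hy, eq_symm_iter_iter]
      rw [h8] at h7
      have h9 := hb1'.dist_le
      have h10 := hcl n (by omega)
      have h11 : dist C0 C1 ≤ T.δ / 4 := by
        have e1 := dist_triangle4 C0 X0 (T.g^[j] b) C1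
        rw [dist_comm C0 X0, dist_comm (T.g^[j] b) C1] at e1
        linarith
      exact T.shrinkU0 (by linarith) h3 h11
  have h1 := claim k le_rfl
  have h2 := T.shrinkU (by linarith) h1 (h1.dist_le.trans (by linarith : _ ≤ T.εs)) (l - n)
  have h3 := h2.dist_le.trans (hk1 _ (by omega))
  rw [← Function.iterate_add_apply, ← Function.iterate_add_apply,
    Nat.sub_add_cancel (by omega), hit, hit] at h3
  exact (hε1X _ _ h3).le

/-- **Properly embedded unstable leaves: bounded pieces are uniformly contracted.** -/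
theorem bp_of_pp [Group Γ] [MulAction Γ X] [IsIsometricSMul Γ X] {H : Sheets P r ρ}
    (T : CSys (LX H)) {G : X ≃ X} (hTg : T.g = lmap H G)
    (hTρ : T.εs < ρ) (hsm : ∀ a b : LX H, dist a b ≤ T.εs → dist a.val b.val ≤ 1)
    (hu' : UCont G.symm)
    (hn2 : ∀ (γ : Γ) (n : ℕ) (x y : X),
      dist (G.symm^[n] (γ • x)) (G.symm^[n] (γ • y)) = dist (G.symm^[n] x) (G.symm^[n] y))
    {K : Set X} (hK : IsCompact K) (hKΓ : ∀ x, ∃ γ : Γ, γ • x ∈ K) (hpp : PP T G) :
    BPieces G := by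
  have hδ0 := T.δ_pos
  have hδρ : T.δ < ρ := lt_of_le_of_lt T.δ_le_εs hTρ
  obtain ⟨s, hs, hsT⟩ := toLX H (show 0 < T.δ / 8 by linarith) (by linarith)
  refine ⟨s / 2, half_pos hs, fun r' ε' hε' => ?_⟩
  choose σ hσ m hm using bp_local T hTg hTρ hsm hu' hpp hsT r' ε' hε'
  obtain ⟨t, -, ht⟩ := hK.elim_nhds_subcover
    (fun z => Metric.ball z (σ z)) (fun z _ => Metric.ball_mem_nhds _ (hσ z))
  refine ⟨t.sup m, fun k c hstep hball l hl => ?_⟩
  obtain ⟨γ, hγ⟩ := hKΓ (c 0)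
  have h2 := ht hγ
  simp only [Set.mem_iUnion, Metric.mem_ball, exists_prop] at h2
  obtain ⟨z, hz, hcz⟩ := h2
  have h3 := hm z k (fun i => γ • c i) (by rw [dist_comm]; exact hcz) (by
    intro i hi l
    rw [hn2]
    exact lt_of_le_of_lt (hstep i hi l) (by linarith)) (by
    intro i hi
    show dist (γ • c 0) (γ • c i) ≤ r'
    rw [dist_smul]
    exact hball i hi) l ((Finset.le_sup hz).trans hl)
  have h4 : dist (G.symm^[l] (γ • c 0)) (G.symm^[l] (γ • c k)) ≤ ε' := h3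
  rwa [hn2] at h4

end Pool.Agent.H223.CL
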