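import Pool.Agent.H223.CL.Bpp

set_option autoImplicit false
set_option linter.unusedSectionVars false

namespace Pool.Agent.H223.CL

open Pool.Agent.H721R2 Pool.Agent.H721R2.CSys Pool.Agent.H789R2.AN Filter Topology
open Pool.Agent.H223.CE Pool.Agent.H223.PG

variable {M X Γ : Type*} [MetricSpace M] [MetricSpace X] {P : X → M} {r ρ : ℝ}

/-- Some piece of a closed unstable leaf is embedded. -/
theorem exists_piece [CompleteSpace X] {G : X ≃ X} (hu' : UCont G.symm) (x : X)
    (hcl : IsClosed {y | As G.symm x y}) {s : ℝ} (hs : 0 < s) :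
    ∃ y0 : X, As G.symm x y0 ∧ ∃ ρ0 > 0, ∃ n0 : ℕ, ∀ y, As G.symm x y → dist y0 y < ρ0 →
      ∀ l ≥ n0, dist (G.symm^[l] x) (G.symm^[l] y) ≤ s := by
  set W : Set X := {y | As G.symm x y} with hW
  haveI : CompleteSpace W := hcl.completeSpace_coe
  haveI : Nonempty W := ⟨⟨x, As.refl _ _⟩⟩
  let A : ℕ → Set W := fun n => {y | ∀ l ≥ n, dist (G.symm^[l] x) (G.symm^[l] y.val) ≤ s}
  have hA : ∀ n, IsClosed (A n) := by
    intro n
    have h1 : A n = ⋂ l : ℕ, ⋂ _ : n ≤ l,
        {y : W | dist (G.symm^[l] x) (G.symm^[l] y.val) ≤ s} := by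
      ext y
      simp only [Set.mem_iInter]
      exact Iff.rfl
    rw [h1]
    refine isClosed_iInter fun l => isClosed_iInter fun _ => ?_
    exact isClosed_le (continuous_const.dist
      ((ucont_continuous (hu'.iter l)).comp continuous_subtype_val)) continuous_const
  have hU : ⋃ n, A n = Set.univ := by
    rw [Set.eq_univ_iff_forall]
    intro y
    have h1 : As G.symm x y.val := y.2
    obtain ⟨n, hn⟩ := eventually_atTop.mp ((tendsto_order.mp h1).2 s hs)
    exact Set.mem_iUnion.mpr ⟨n, fun l hl => (hn l hl).le⟩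
  obtain ⟨n0, y0, hy0⟩ := nonempty_interior_of_iUnion_of_closed hA hU
  rw [mem_interior_iff_mem_nhds, Metric.mem_nhds_iff] at hy0
  obtain ⟨ρ0, hρ0, hball⟩ := hy0
  refine ⟨y0.val, y0.2, ρ0, hρ0, n0, fun y hy hd => ?_⟩
  have h1 : (⟨y, hy⟩ : W) ∈ Metric.ball y0 ρ0 := by
    rw [Metric.mem_ball, dist_comm]
    exact hd
  exact hball h1

/-- Closed unstable leaves are properly embedded. -/
theorem local_of_closed [CompleteSpace X] {H : Sheets P r ρ} (T : CSys (LX H)) {G : X ≃ X}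
    (hTg : T.g = lmap H G) (hTρ : T.εs < ρ) (hu' : UCont G.symm)
    (hcl : ∀ x, IsClosed {y | As G.symm x y}) : PL T G := by
  have hTg' : T.g.symm = lmap H G.symm := by rw [hTg]; rfl
  have hδ0 := T.δ_pos
  have hδε := T.δ_le_εs
  have h36 := T.e36
  have hKδ := T.Kδ_pos
  have hK := T.one_le_K
  have hδρ : T.δ < ρ := lt_of_le_of_lt hδε hTρ
  have hit : ∀ (n : ℕ) (a : X), (T.g.symm^[n] (⟨a⟩ : LX H)) = ⟨G.symm^[n] a⟩ := by
    intro n a
    rw [hTg']
    exact LX.ext (lmap_iter H G.symm n ⟨a⟩)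
  intro x z
  by_cases hz : As G.symm x z
  · obtain ⟨s1, hs1, hs1T⟩ := toLX H (half_pos hδ0) (by linarith : T.δ / 2 < ρ)
    obtain ⟨y0, hy0, ρ0, hρ0, n0, hn0⟩ := exists_piece hu' x (hcl x) (half_pos hs1)
    obtain ⟨N, hN⟩ := level T hTg (half_pos hδ0) (hz.symm.trans hy0)
    obtain ⟨ε2, hε2, -, hε2X⟩ := ofLX H hρ0
    obtain ⟨k, hk⟩ := exists_alpha T hε2
    obtain ⟨k2, hk2⟩ := exists_beta T (half_pos hδ0)
    set m := k + N with hm
    obtain ⟨s2, hs2, hs2'⟩ := hu'.iters m s1 hs1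
    refine ⟨s2, hs2, n0 + k2 + m, fun y hzy hy => ?_⟩
    have hab : dist (T.g.symm^[m] (⟨z⟩ : LX H)) (T.g.symm^[m] ⟨y0⟩) ≤ T.δ / 2 := by
      rw [hm, Function.iterate_add_apply, Function.iterate_add_apply]
      exact (hN.iter k).dist_le
    have hac : dist (T.g.symm^[m] (⟨z⟩ : LX H)) (T.g.symm^[m] ⟨y⟩) ≤ T.δ / 2 := by
      rw [hit, hit]
      exact hs1T _ _ (hs2' m le_rfl _ _ hzy)
    have hbc : dist (T.g.symm^[m] (⟨y0⟩ : LX H)) (T.g.symm^[m] ⟨y⟩) ≤ T.δ := by
      have := dist_triangle_left (T.g.symm^[m] (⟨y0⟩ : LX H)) (T.g.symm^[m] ⟨y⟩)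
        (T.g.symm^[m] (⟨z⟩ : LX H))
      linarith
    obtain ⟨v, hv1, hv2⟩ := T.lp _ _ (hbc.trans (by linarith : T.δ ≤ 2 * T.δ))
    have h9 : 9 * T.K * dist (T.g.symm^[m] (⟨y0⟩ : LX H)) (T.g.symm^[m] ⟨y⟩) ≤ T.εs := by
      have h5 := mul_le_mul_of_nonneg_left hbc (by linarith : 0 ≤ 9 * T.K)
      linarith
    have hv1' := hv1.mono h9
    have hv2' := hv2.mono h9
    -- the point near `y0`
    have h1 : dist (⟨y0⟩ : LX H) (T.g^[m] v) ≤ ε2 := by
      have h2 := (T.shrink le_rfl hv1' hv1'.dist_le m).dist_le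
      rw [eq_iter_symm_iter] at h2
      exact h2.trans (hk m (by omega))
    have h2 : dist y0 (T.g^[m] v).val < ρ0 := hε2X _ _ h1
    have h3 : As T.g.symm (T.g^[m] v) (⟨y⟩ : LX H) := by
      have h4 := asU_shift T.g m (asU_of_frel T le_rfl hv2')
      rwa [eq_iter_symm_iter] at h4
    have h4 : As G.symm (T.g^[m] v).val y := by
      rw [hTg'] at h3
      exact as_of_lx H h3
    have h5 : As G.symm x (T.g^[m] v).val := hy.trans h4.symm
    have h6 : FRel T.g.symm (T.δ / 2) (T.g.symm^[n0] (⟨x⟩ : LX H)) (T.g.symm^[n0] (T.g^[m] v)) := by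
      intro l
      have h7 := hn0 _ h5 h2 (l + n0) (by omega)
      rw [← Function.iterate_add_apply, ← Function.iterate_add_apply, hit,
        show T.g^[m] v = (⟨(T.g^[m] v).val⟩ : LX H) from rfl, hit]
      exact hs1T _ _ (by linarith)
    have h7 : FRel T.g.symm (T.δ / 2) (T.g.symm^[n0 + k2 + m] (⟨x⟩ : LX H))
        (T.g.symm^[n0 + k2 + m] (T.g^[m] v)) := by
      have h8 := h6.iter (k2 + m)
      rw [← Function.iterate_add_apply, ← Function.iterate_add_apply,
        show k2 + m + n0 = n0 + k2 + m by ring] at h8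
      exact h8
    have h8 : FRel T.g.symm (T.δ / 2) (T.g.symm^[n0 + k2 + m] (T.g^[m] v))
        (T.g.symm^[n0 + k2 + m] (⟨y⟩ : LX H)) := by
      have h10 := (T.shrinkU le_rfl hv2' hv2'.dist_le (n0 + k2)).mono (hk2 _ (by omega))
      rw [Function.iterate_add_apply T.g.symm (n0 + k2) m (T.g^[m] v), eq_symm_iter_iter,
        Function.iterate_add_apply T.g.symm (n0 + k2) m]
      exact h10
    exact (h7.trans h8).mono (by linarith)
  · have h1 : {y | As G.symm x y}ᶜ ∈ 𝓝 z := (hcl x).isOpen_compl.mem_nhds hz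
    obtain ⟨s, hs, hs'⟩ := Metric.mem_nhds_iff.mp h1
    refine ⟨s, hs, 0, fun y hzy hy => ?_⟩
    have h2 : y ∈ Metric.ball z s := by rw [Metric.mem_ball, dist_comm]; exact hzy
    exact absurd hy (hs' h2)

/-- two points of a periodic unstable leaf -/
theorem eq_of_periodic [Group Γ] [MulAction Γ X] [IsIsometricSMul Γ X] {G : X ≃ X}
    (hn2 : ∀ (γ : Γ) (n : ℕ) (x y : X),
      dist (G.symm^[n] (γ • x)) (G.symm^[n] (γ • y)) = dist (G.symm^[n] x) (G.symm^[n] y))
    {n : ℕ} (hn : 1 ≤ n) {γ : Γ} {x y : X} (hx : G^[n] x = γ • x) (hy : G^[n] y = γ • y)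
    (h : As G.symm y x) : x = y := by
  have h1 : ∀ l, dist (G.symm^[l] y) (G.symm^[l] x) =
      dist (G.symm^[l + n] y) (G.symm^[l + n] x) := by
    intro l
    have e1 : G.symm^[n] (γ • x) = x := by rw [← hx, eq_symm_iter_iter]
    have e2 : G.symm^[n] (γ • y) = y := by rw [← hy, eq_symm_iter_iter]
    rw [← hn2 γ (l + n), Function.iterate_add_apply, Function.iterate_add_apply, e1, e2]
  have h2 : ∀ j, dist (G.symm^[n * j] y) (G.symm^[n * j] x) = dist y x := by
    intro j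
    induction j with
    | zero => rfl
    | succ j ih => rw [← ih, Nat.mul_succ, ← h1]
  have h3 : Tendsto (fun j : ℕ => n * j) atTop atTop :=
    tendsto_atTop_mono (fun j => Nat.le_mul_of_pos_left j hn) tendsto_id
  have h4 := h.comp h3
  have h5 : Tendsto (fun _ : ℕ => dist y x) atTop (𝓝 0) := h4.congr fun j => h2 j
  have h6 := tendsto_nhds_unique h5 tendsto_const_nhds
  exact (dist_eq_zero.mp h6.symm).symm

/-- **Each lift of each iterate has at most one fixed point.** -/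
theorem nfix_of_closed [Group Γ] [MulAction Γ X] [IsIsometricSMul Γ X] {G : X ≃ X}
    (hn1 : ∀ (γ : Γ) (n : ℕ) (x y : X),
      dist (G^[n] (γ • x)) (G^[n] (γ • y)) = dist (G^[n] x) (G^[n] y))
    (hn2 : ∀ (γ : Γ) (n : ℕ) (x y : X),
      dist (G.symm^[n] (γ • x)) (G.symm^[n] (γ • y)) = dist (G.symm^[n] x) (G.symm^[n] y))
    (hex : ∀ x y : X, ∃ w, As G x w ∧ As G.symm y w)
    (hcl : ∀ x y : X, IsClosed {w | As G x w ∧ As G.symm y w} ∨ IsClosed {w | As G.symm y w}) :
    NFix Γ G := by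
  intro n hn γ x y hx hy
  obtain ⟨w, hw1, hw2⟩ := hex x y
  set φ : X → X := fun u => γ⁻¹ • G^[n] u with hφ
  have hφx : φ x = x := by show γ⁻¹ • G^[n] x = x; rw [hx, inv_smul_smul]
  have hφy : φ y = y := by show γ⁻¹ • G^[n] y = y; rw [hy, inv_smul_smul]
  have s1 : ∀ {a b : X}, As G a b → As G (φ a) (φ b) := by
    intro a b h
    have h1 := h.iter n
    unfold As at *
    simpa only [hφ, hn1] using h1
  have s2 : ∀ {a b : X}, As G.symm a b → As G.symm (φ a) (φ b) := by
    intro a b h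
    have h1 := asU_shift G n h
    unfold As at *
    simpa only [hφ, hn2] using h1
  have hw : ∀ j : ℕ, As G x (φ^[j] w) ∧ As G.symm y (φ^[j] w) := by
    intro j
    induction j with
    | zero => exact ⟨hw1, hw2⟩
    | succ j ih =>
      rw [Function.iterate_succ_apply']
      have h1 := s1 ih.1
      have h2 := s2 ih.2
      rw [hφx] at h1
      rw [hφy] at h2
      exact ⟨h1, h2⟩
  have hd : ∀ (j m : ℕ) (a b : X), dist (G^[m] (φ^[j] a)) (G^[m] (φ^[j] b)) =
      dist (G^[m + n * j] a) (G^[m + n * j] b) := by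
    intro j
    induction j with
    | zero => intro m a b; rfl
    | succ j ih =>
      intro m a b
      rw [Function.iterate_succ_apply, Function.iterate_succ_apply, ih]
      show dist (G^[m + n * j] (γ⁻¹ • G^[n] a)) (G^[m + n * j] (γ⁻¹ • G^[n] b)) = _
      rw [hn1, ← Function.iterate_add_apply, ← Function.iterate_add_apply,
        show m + n * j + n = m + n * (j + 1) by ring]
  have hfx : ∀ j : ℕ, φ^[j] x = x := fun j => Function.iterate_fixed hφx j
  have h3 : Tendsto (fun j : ℕ => n * j) atTop atTop :=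
    tendsto_atTop_mono (fun j => Nat.le_mul_of_pos_left j hn) tendsto_id
  have hlim : Tendsto (fun j : ℕ => φ^[j] w) atTop (𝓝 x) := by
    rw [tendsto_iff_dist_tendsto_zero]
    have h4 : Tendsto (fun j : ℕ => dist (G^[n * j] x) (G^[n * j] w)) atTop (𝓝 0) :=
      Filter.Tendsto.comp hw1 h3
    refine h4.congr fun j => ?_
    have h5 := hd j 0 x w
    rw [hfx] at h5
    have h6 : dist x (φ^[j] w) = dist (G^[0 + n * j] x) (G^[0 + n * j] w) := h5
    rw [Nat.zero_add] at h6
    rw [← h6, dist_comm]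
  have hmem : As G.symm y x := by
    rcases hcl x y with h | h
    · exact (h.mem_of_tendsto hlim (Eventually.of_forall fun j => hw j)).2
    · exact h.mem_of_tendsto hlim (Eventually.of_forall fun j => (hw j).2)
  exact eq_of_periodic hn2 hn hx hy hmem

end Pool.Agent.H223.CL
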