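import Pool.Agent.H223.PG.Man
import Pool.Agent.H223.PG.Pinch

set_option autoImplicit false
set_option linter.unusedSectionVars false

namespace Pool.Agent.H223.CL

open Pool.Agent.H721R2 Pool.Agent.H721R2.CSys Pool.Agent.H789R2.AN Filter Topology
open Pool.Agent.H223.CE Pool.Agent.H223.PG

variable {M X : Type*} [MetricSpace M] [MetricSpace X] {P : X → M} {r ρ : ℝ}

theorem toLX (H : Sheets P r ρ) {ε : ℝ} (h0 : 0 < ε) (hε : ε < ρ) :
    ∃ s > 0, ∀ a b : X, dist a b < s → dist (⟨a⟩ : LX H) ⟨b⟩ ≤ ε := by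
  obtain ⟨η, hη, hc⟩ := H.cont ε h0
  refine ⟨min η r, lt_min hη H.r_pos, fun a b hab => ?_⟩
  rw [lx_dist, ndist_le_iff hε]
  exact ⟨lt_of_lt_of_le hab (min_le_right _ _), (hc _ _ (lt_of_lt_of_le hab (min_le_left _ _))).le⟩

theorem ofLX (H : Sheets P r ρ) {η : ℝ} (h0 : 0 < η) :
    ∃ ε > 0, ε < ρ ∧ ∀ a b : LX H, dist a b ≤ ε → dist a.val b.val < η := by
  obtain ⟨ε, hε, h1⟩ := H.unif η h0
  have hρ := H.ρ_pos
  have h2 : min (ε / 2) (ρ / 2) < ρ := lt_of_le_of_lt (min_le_right _ _) (by linarith)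
  refine ⟨min (ε / 2) (ρ / 2), lt_min (by linarith) (by linarith), h2, fun a b hab => ?_⟩
  rw [lx_dist, ndist_le_iff h2] at hab
  exact h1 _ _ hab.1 (lt_of_le_of_lt (hab.2.trans (min_le_left _ _)) (by linarith))

/-- The unstable leaves are properly embedded. -/
def PP {H : Sheets P r ρ} (T : CSys (LX H)) (G : X ≃ X) : Prop :=
  ∀ (x : X) (R : ℝ), ∃ n : ℕ, ∀ y : X, As G.symm x y → dist x y ≤ R →
    FRel T.g.symm T.δ (T.g.symm^[n] (⟨x⟩ : LX H)) (T.g.symm^[n] ⟨y⟩)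

/-- The local version. -/
def PL {H : Sheets P r ρ} (T : CSys (LX H)) (G : X ≃ X) : Prop :=
  ∀ x z : X, ∃ s > 0, ∃ n : ℕ, ∀ y : X, dist z y < s → As G.symm x y →
    FRel T.g.symm T.δ (T.g.symm^[n] (⟨x⟩ : LX H)) (T.g.symm^[n] ⟨y⟩)

theorem pp_of_local [ProperSpace X] {H : Sheets P r ρ} {T : CSys (LX H)} {G : X ≃ X}
    (h : PL T G) : PP T G := by
  intro x R
  choose s hs n hn using h x
  obtain ⟨t, -, ht⟩ := (isCompact_closedBall x R).elim_nhds_subcover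
    (fun z => Metric.ball z (s z)) (fun z _ => Metric.ball_mem_nhds _ (hs z))
  refine ⟨t.sup n, fun y hy hd => ?_⟩
  have h1 : y ∈ Metric.closedBall x R := by rw [Metric.mem_closedBall, dist_comm]; exact hd
  have h2 := ht h1
  simp only [Set.mem_iUnion, Metric.mem_ball, exists_prop] at h2
  obtain ⟨z, hz, hyz⟩ := h2
  have h3 := hn z y (by rw [dist_comm]; exact hyz) hy
  obtain ⟨j, hj⟩ := Nat.exists_eq_add_of_le (Finset.le_sup hz : n z ≤ t.sup n)
  rw [hj, add_comm, Function.iterate_add_apply, Function.iterate_add_apply]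
  exact h3.iter j

theorem level {H : Sheets P r ρ} (T : CSys (LX H)) {G : X ≃ X} (hTg : T.g = lmap H G) {ε : ℝ}
    (hε : 0 < ε) {x w : X} (h : As G.symm x w) :
    ∃ n, FRel T.g.symm ε (T.g.symm^[n] (⟨x⟩ : LX H)) (T.g.symm^[n] ⟨w⟩) := by
  have hTg' : T.g.symm = lmap H G.symm := by rw [hTg]; rfl
  have h1 : As T.g.symm (⟨x⟩ : LX H) ⟨w⟩ := by rw [hTg']; exact lx_of_as H h
  obtain ⟨n, hn⟩ := eventually_atTop.mp ((tendsto_order.mp h1).2 ε hε)
  refine ⟨n, fun j => ?_⟩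
  rw [← Function.iterate_add_apply, ← Function.iterate_add_apply]
  exact (hn _ (by omega)).le

theorem exists_beta {H : Sheets P r ρ} (T : CSys (LX H)) {ε : ℝ} (hε : 0 < ε) :
    ∃ k : ℕ, ∀ j ≥ k, T.β ^ j * T.εs ≤ ε := by
  have t1 : Tendsto (fun j : ℕ => T.β ^ j * T.εs) atTop (𝓝 0) := by
    have := ((tendsto_pow_atTop_nhds_zero_of_lt_one T.β_pos
      (by linarith [T.β_le] : T.β < 1)).mul_const T.εs)
    simpa using this
  obtain ⟨k, hk⟩ := eventually_atTop.mp ((tendsto_order.mp t1).2 _ hε)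
  exact ⟨k, fun j hj => (hk j hj).le⟩

theorem exists_alpha {H : Sheets P r ρ} (T : CSys (LX H)) {ε : ℝ} (hε : 0 < ε) :
    ∃ k : ℕ, ∀ j ≥ k, T.α ^ j * T.εs ≤ ε := by
  have t1 : Tendsto (fun j : ℕ => T.α ^ j * T.εs) atTop (𝓝 0) := by
    have := ((tendsto_pow_atTop_nhds_zero_of_lt_one T.α_pos
      (by linarith [T.α_le] : T.α < 1)).mul_const T.εs)
    simpa using this
  obtain ⟨k, hk⟩ := eventually_atTop.mp ((tendsto_order.mp t1).2 _ hε)
  exact ⟨k, fun j hj => (hk j hj).le⟩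

/-- Finite intersections imply properness. -/
theorem local_of_finite {H : Sheets P r ρ} (T : CSys (LX H)) {G : X ≃ X} (hTg : T.g = lmap H G)
    (hTρ : T.εs < ρ) (hfin : ∀ z x : X, {w | As G z w ∧ As G.symm x w}.Finite) : PL T G := by
  have hTg' : T.g.symm = lmap H G.symm := by rw [hTg]; rfl
  have hδ0 := T.δ_pos
  have hδε := T.δ_le_εs
  have h36 := T.e36
  have hKδ := T.Kδ_pos
  have hK := T.one_le_K
  have hδρ : T.δ < ρ := lt_of_le_of_lt hδε hTρ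
  intro x z
  obtain ⟨s, hs, hsT⟩ := toLX H hδ0 hδρ
  have hlev : ∀ w : X, ∃ n : ℕ, As G.symm x w →
      FRel T.g.symm (T.δ / 2) (T.g.symm^[n] (⟨x⟩ : LX H)) (T.g.symm^[n] ⟨w⟩) := by
    intro w
    by_cases hw : As G.symm x w
    · obtain ⟨n, hn⟩ := level T hTg (half_pos hδ0) hw
      exact ⟨n, fun _ => hn⟩
    · exact ⟨0, fun h => absurd h hw⟩
  choose N hN using hlev
  set Φ := (hfin z x).toFinset with hΦ
  obtain ⟨k, hk⟩ := exists_beta T (half_pos hδ0)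
  refine ⟨s, hs, Φ.sup N + k, fun y hzy hy => ?_⟩
  have h1 := hsT z y hzy
  obtain ⟨w, hw1, hw2⟩ := T.lp _ _ (h1.trans (by linarith : T.δ ≤ 2 * T.δ))
  have h9 : 9 * T.K * dist (⟨z⟩ : LX H) ⟨y⟩ ≤ T.εs := by
    have h5 : 9 * T.K * dist (⟨z⟩ : LX H) ⟨y⟩ ≤ 9 * T.K * T.δ :=
      mul_le_mul_of_nonneg_left h1 (by linarith)
    linarith
  have hS := as_of_frel T h9 hw1
  have hU := asU_of_frel T h9 hw2
  rw [hTg] at hS
  rw [hTg'] at hU
  have hS' : As G z w.val := as_of_lx H hS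
  have hU' : As G.symm w.val y := as_of_lx H hU
  have hxw : As G.symm x w.val := hy.trans hU'.symm
  have hw : w.val ∈ Φ := by
    rw [hΦ, Set.Finite.mem_toFinset]
    exact ⟨hS', hxw⟩
  have h2 := hN w.val hxw
  obtain ⟨j, hj⟩ := Nat.exists_eq_add_of_le (Finset.le_sup hw : N w.val ≤ Φ.sup N)
  have h3 : FRel T.g.symm (T.δ / 2) (T.g.symm^[Φ.sup N + k] (⟨x⟩ : LX H))
      (T.g.symm^[Φ.sup N + k] w) := by
    have h4 := h2.iter (j + k)
    rw [← Function.iterate_add_apply, ← Function.iterate_add_apply,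
      show j + k + N w.val = Φ.sup N + k by omega] at h4
    exact h4
  have h4 : FRel T.g.symm (T.δ / 2) (T.g.symm^[Φ.sup N + k] w)
      (T.g.symm^[Φ.sup N + k] (⟨y⟩ : LX H)) := by
    have h5 := T.shrinkU le_rfl (hw2.mono h9) ((hw2.mono h9).dist_le) (Φ.sup N + k)
    exact h5.mono (hk _ (by omega))
  exact (h3.trans h4).mono (by linarith)

end Pool.Agent.H223.CL
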