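import Pool.Agent.H223.CL.Closed

set_option autoImplicit false
set_option linter.unusedSectionVars false

open scoped Manifold ContDiff Topology
open Set Filter

namespace Pool.Agent.H223.CL

open Pool.Agent.H721R2 Pool.Agent.H789R2.AN Pool.Agent.H721R2.CSys
open Pool.Agent.H223.CE Pool.Agent.H223.PG

section core

variable {M X Γ E : Type*} [MetricSpace M] [CompactSpace M] [PreconnectedSpace M]
  [MetricSpace X] [ProperSpace X] [PreconnectedSpace X]
  [NormedAddCommGroup E] [NormedSpace ℝ E]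
  [Group Γ] [MulAction Γ X] [IsIsometricSMul Γ X] {P : X → M} {r ρ : ℝ}

theorem core_uniq (S : HypSys M E) (H : Sheets P r ρ) (hs : Function.Surjective P) {G : X ≃ X}
    (hG : ∀ x, P (G x) = S.g (P x)) (hu : UCont G) (hu' : UCont G.symm)
    (hΓ : ∀ x y, P x = P y ↔ ∃ γ : Γ, γ • x = y)
    (hn1 : ∀ (γ : Γ) (n : ℕ) (x y : X),
      dist (G^[n] (γ • x)) (G^[n] (γ • y)) = dist (G^[n] x) (G^[n] y))
    (hn2 : ∀ (γ : Γ) (n : ℕ) (x y : X),
      dist (G.symm^[n] (γ • x)) (G.symm^[n] (γ • y)) = dist (G.symm^[n] x) (G.symm^[n] y))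
    {K : Set X} (hK : IsCompact K) (hKΓ : ∀ x, ∃ γ : Γ, γ • x ∈ K) (hbb : BBr G)
    (hcl : (∀ x, IsClosed {y | As G.symm x y}) ∨ ∀ x y, {w | As G x w ∧ As G.symm y w}.Finite)
    (x y : X) (h1 : As G x y) (h2 : As G.symm x y) : x = y := by
  obtain ⟨c, hL⟩ := exists_LP S
  obtain ⟨T, hTg, -, -, hTρ, hsm⟩ := exists_lift S H hG hu hu' 0 1 one_pos
  have hsm' : ∀ a b : LX H, dist a b ≤ T.εs → dist a.val b.val ≤ 1 := by
    intro a b hab
    rw [lx_dist, ndist_le_iff hTρ] at hab
    exact (hsm _ _ hab.1 hab.2).2.2.2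
  have hPL : PL T G := by
    rcases hcl with h | h
    · exact local_of_closed T hTg hTρ hu' h
    · exact local_of_finite T hTg hTρ h
  have hB : BPieces G := bp_of_pp T hTg hTρ hsm' hu' hn2 hK hKΓ (pp_of_local hPL)
  have hex : ∀ x y : X, ∃ w, As G x w ∧ As G.symm y w :=
    fun x y => globalX2 S H hG hu hu' hbb hB x y
  have hN : NFix Γ G := nfix_of_closed hn1 hn2 hex (fun x y => by
    rcases hcl with h | h
    · exact Or.inr (h y)
    · exact Or.inl (h x y).isClosed)
  have htr : ∀ U V : Set M, IsOpen U → U.Nonempty → IsOpen V → V.Nonempty →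
      ∃ n : ℕ, (S.g^[n] '' U ∩ V).Nonempty := transM hL (fun x y z hxy hxz =>
        swapM2 S H hs hG hu hu' hbb hB x y z hxy hxz)
  exact uniq_of_nweak S H hG hu hΓ (nweak_of_nfix hN) htr x y h1 h2

theorem bbr_symm {G : X ≃ X} (h : BBr G) : BBr G.symm := by
  intro c
  obtain ⟨D, hD⟩ := h c
  refine ⟨c + D, fun x y w hxy h1 h2 => ?_⟩
  have h3 := hD y x w (by rw [dist_comm]; exact hxy) h2 h1
  have h4 := dist_triangle x y w
  linarith

end core

variable {E : Type*} [NormedAddCommGroup E] [NormedSpace ℝ E] [FiniteDimensional ℝ E]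
  {M : Type*} [TopologicalSpace M] [T2Space M] [CompactSpace M] [ConnectedSpace M]
  [ChartedSpace E M] [IsManifold 𝓘(ℝ, E) ∞ M]
  {X : Type*} [MetricSpace X] [ProperSpace X] [ConnectedSpace X]
  {Γ : Type*} [Group Γ] [MulAction Γ X] [IsIsometricSMul Γ X]

theorem man_uniq (f : Diffeomorph 𝓘(ℝ, E) 𝓘(ℝ, E) M M 1)
    (Es Eu : ∀ x : M, Submodule ℝ (TangentSpace 𝓘(ℝ, E) x)) (hA : IsAnosov f Es Eu)
    (P : X → M) (hP : IsCoveringMap P) (hs : Function.Surjective P)
    (hΓ : ∀ x y, P x = P y ↔ ∃ γ : Γ, γ • x = y) (F : X ≃ₜ X) (hF : ∀ x, P (F x) = f (P x)) :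
    (BoundedBrackets F → ((∀ x, IsClosed {y | Asymp F.symm x y}) ∨
      (∀ x, IsClosed {y | Asymp F x y}) ∨
      ∀ x y, {w | Asymp F x w ∧ Asymp F.symm y w}.Finite) →
      ∀ x y, Asymp F x y → Asymp F.symm x y → x = y) ∧
    (CoarselyDominated F → BoundedBrackets F) := by
  obtain ⟨m, e, he, hemb, hinj⟩ := exists_embedding_euclidean_of_compact (I := 𝓘(ℝ, E)) (M := M)
  let _ : MetricSpace M := hemb.isEmbedding.comapMetricSpace e
  have hiso : ∀ x y : M, dist x y = ‖e x - e y‖ := fun x y => dist_eq_norm (e x) (e y)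
  have he1 : ContMDiff 𝓘(ℝ, E) (𝓡 m) 1 e := he.of_le (by simp)
  obtain ⟨N, S, -, hN, hg⟩ := exists_sys_mul hiso he1 hinj f Es Eu hA 1 le_rfl
  obtain ⟨K, hK, hKΓ⟩ := exists_K (Γ := Γ) hP hs hΓ
  obtain ⟨r, ρ, H⟩ := exists_sheets (Γ := Γ) hP hΓ hK hKΓ
  have hF' : ∀ x, P (F.symm x) = f.symm (P x) := by
    intro x
    apply f.injective
    show f (P (F.symm x)) = f (f.symm (P x))
    rw [← hF, Homeomorph.apply_symm_apply]
    exact (f.apply_symm_apply _).symm
  have hu : UCont F := lift_ucont (Γ := Γ) hP hΓ hK hKΓ (f := f) F.continuous hF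
  have hu' : UCont F.symm :=
    lift_ucont (Γ := Γ) hP hΓ hK hKΓ (f := f.symm) F.symm.continuous hF'
  have hno1 : ∀ γ : Γ, ∃ γ' : Γ, ∀ x, F (γ • x) = γ' • F x :=
    lift_normal hP hΓ (f := f) F.continuous hF
  have hno2 : ∀ γ : Γ, ∃ γ' : Γ, ∀ x, F.symm (γ • x) = γ' • F.symm x :=
    lift_normal hP hΓ (f := f.symm) F.symm.continuous hF'
  have hm1 := inv_iter (F := F) hno1
  have hm2 := inv_iter (F := F.symm) hno2
  constructor
  · intro hbb hcl
    set G : X ≃ X := (iterHomeo F N).toEquiv with hGdef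
    have hGf : ∀ x, G x = F^[N] x := fun _ => rfl
    have hG : ∀ x, P (G x) = S.g (P x) := by
      intro x
      have h1 : ∀ (k : ℕ) (x : X), P (F^[k] x) = f^[k] (P x) := by
        intro k
        induction k with
        | zero => intro x; rfl
        | succ k ih =>
          intro x
          rw [Function.iterate_succ_apply, Function.iterate_succ_apply, ih, hF]
      rw [hg, hGf, h1]; rfl
    have hG' : ∀ x, P (G.symm x) = S.symm.g (P x) := proj_symm (P := P) (g := S.g.toEquiv) hG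
    have huG : UCont G := hu.iter N
    have huG' : UCont G.symm := hu'.iter N
    have as1 : ∀ x y, As G x y → As F x y := fun x y h => as_of_iter hu hN h
    have as2 : ∀ x y, As G.symm x y → As F.symm x y := fun x y h => as_of_iter hu' hN h
    have as1' : ∀ x y, As F x y → As G x y := fun x y h => iter_of_as hN h
    have as2' : ∀ x y, As F.symm x y → As G.symm x y := fun x y h => iter_of_as hN h
    have hno1' : ∀ γ : Γ, ∃ γ' : Γ, ∀ x, G (γ • x) = γ' • G x := by
      have : ∀ (k : ℕ) (γ : Γ), ∃ γ' : Γ, ∀ x, F^[k] (γ • x) = γ' • F^[k] x := by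
        intro k
        induction k with
        | zero => exact fun γ => ⟨γ, fun x => rfl⟩
        | succ k ih =>
          intro γ
          obtain ⟨γ1, h1⟩ := hno1 γ
          obtain ⟨γ2, h2⟩ := ih γ1
          exact ⟨γ2, fun x => by
            rw [Function.iterate_succ_apply, h1, h2, Function.iterate_succ_apply]⟩
      exact this N
    have hno2' : ∀ γ : Γ, ∃ γ' : Γ, ∀ x, G.symm (γ • x) = γ' • G.symm x := by
      have : ∀ (k : ℕ) (γ : Γ), ∃ γ' : Γ, ∀ x, F.symm^[k] (γ • x) = γ' • F.symm^[k] x := by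
        intro k
        induction k with
        | zero => exact fun γ => ⟨γ, fun x => rfl⟩
        | succ k ih =>
          intro γ
          obtain ⟨γ1, h1⟩ := hno2 γ
          obtain ⟨γ2, h2⟩ := ih γ1
          exact ⟨γ2, fun x => by
            rw [Function.iterate_succ_apply, h1, h2, Function.iterate_succ_apply]⟩
      exact this N
    have hn1 := fun (γ : Γ) (n : ℕ) => inv_iter (F := G) hno1' n γ
    have hn2 := fun (γ : Γ) (n : ℕ) => inv_iter (F := G.symm) hno2' n γ
    have hbbG : BBr G := by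
      intro c
      obtain ⟨D, hD⟩ := hbb c
      exact ⟨D, fun x y w hxy h1 h2 => hD x y w hxy (as1 _ _ h1) (as2 _ _ h2)⟩
    have e1 : ∀ x, {y | As G x y} = {y | Asymp F x y} := fun x =>
      Set.ext fun y => ⟨as1 x y, as1' x y⟩
    have e2 : ∀ x, {y | As G.symm x y} = {y | Asymp F.symm x y} := fun x =>
      Set.ext fun y => ⟨as2 x y, as2' x y⟩
    intro x y hxy hxy'
    rcases hcl with h | h | h
    · exact core_uniq S H hs hG huG huG' hΓ hn1 hn2 hK hKΓ hbbG
        (Or.inl fun x => by rw [e2]; exact h x) x y (as1' _ _ hxy) (as2' _ _ hxy')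
    · exact core_uniq S.symm H hs hG' huG' huG hΓ hn2 hn1 hK hKΓ (bbr_symm hbbG)
        (Or.inl fun x => by
          show IsClosed {y | As G x y}
          rw [e1]; exact h x) x y (as2' _ _ hxy') (as1' _ _ hxy)
    · refine core_uniq S H hs hG huG huG' hΓ hn1 hn2 hK hKΓ hbbG
        (Or.inr fun x y => ?_) x y (as1' _ _ hxy) (as2' _ _ hxy')
      exact (h x y).subset fun w hw => ⟨as1 _ _ hw.1, as2 _ _ hw.2⟩
  · rintro ⟨n, -, κs, κu, C, h0, hκ, hUu, hSs⟩ c
    have hKc : IsCompact (K ×ˢ Metric.cthickening c K) := hK.prod hK.cthickening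
    have hcont : Continuous (fun p : X × X => dist (F^[n] p.1) (F^[n] p.2)) :=
      ((F.continuous.iterate n).comp continuous_fst).dist
        ((F.continuous.iterate n).comp continuous_snd)
    obtain ⟨c', hc'⟩ := hKc.bddAbove_image hcont.continuousOn
    have hbd : ∀ x y, dist x y ≤ c → dist (F^[n] x) (F^[n] y) ≤ c' := by
      intro x y hxy
      obtain ⟨γ, hγ⟩ := hKΓ x
      have h6 : (γ • x, γ • y) ∈ K ×ˢ Metric.cthickening c K := by
        refine ⟨hγ, Metric.mem_cthickening_of_dist_le (γ • y) (γ • x) c K hγ ?_⟩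
        rw [dist_smul, dist_comm]; exact hxy
      have h7 : dist (F^[n] (γ • x)) (F^[n] (γ • y)) ≤ c' := hc' (mem_image_of_mem _ h6)
      rwa [hm1] at h7
    have hκu : 0 < κu := lt_of_le_of_lt h0 hκ
    refine ⟨(c' + 2 * C + κu * c) / (κu - κs), fun x y w hxy h1 h2 => ?_⟩
    rw [le_div_iff₀ (by linarith)]
    have e1 := hUu _ _ h2
    have e2 := hSs _ _ h1
    have e3 := hbd x y hxy
    have e4 := dist_triangle (F^[n] y) (F^[n] x) (F^[n] w)
    rw [dist_comm (F^[n] y) (F^[n] x)] at e4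
    have e5 := dist_triangle x y w
    have e6 : κu * (dist x w - c) ≤ κu * dist y w :=
      mul_le_mul_of_nonneg_left (by linarith) hκu.le
    nlinarith

/-- **Closed leaves.** -/
theorem man_cl (f : Diffeomorph 𝓘(ℝ, E) 𝓘(ℝ, E) M M 1)
    (Es Eu : ∀ x : M, Submodule ℝ (TangentSpace 𝓘(ℝ, E) x)) (hA : IsAnosov f Es Eu)
    (P : X → M) (hP : IsCoveringMap P) (hs : Function.Surjective P)
    (hΓ : ∀ x y, P x = P y ↔ ∃ γ : Γ, γ • x = y) (F : X ≃ₜ X) (hF : ∀ x, P (F x) = f (P x)) :
    List.TFAE [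
      TopTransitive f ∧ ∀ x y, ∃! w, Asymp F x w ∧ Asymp F.symm y w,
      BoundedBrackets F ∧ ∀ x, IsClosed {y | Asymp F.symm x y},
      BoundedBrackets F ∧ ∀ x, IsClosed {y | Asymp F x y},
      BoundedBrackets F ∧ ∀ x y, {w | Asymp F x w ∧ Asymp F.symm y w}.Finite] := by
  have key := man_bb f Es Eu hA P hP hs hΓ F hF
  have key2 := (man_uniq f Es Eu hA P hP hs hΓ F hF).1
  have hq : (∀ x y : X, ∃! w, Asymp F x w ∧ Asymp F.symm y w) →
      ∀ x y : X, Asymp F x y → Asymp F.symm x y → x = y := by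
    intro h x y h1 h2
    obtain ⟨w, -, hw⟩ := h x x
    rw [hw x ⟨As.refl _ _, As.refl _ _⟩, hw y ⟨h1, h2⟩]
  tfae_have 2 → 1 := fun h => key.1 (key2 h.1 (Or.inl h.2)) h.1
  tfae_have 3 → 1 := fun h => key.1 (key2 h.1 (Or.inr (Or.inl h.2))) h.1
  tfae_have 4 → 1 := fun h => key.1 (key2 h.1 (Or.inr (Or.inr h.2))) h.1
  tfae_have 1 → 2 := by
    intro h
    obtain ⟨hbb, br, hbr, hbr'⟩ := key.2 h.2
    refine ⟨hbb, fun x => ?_⟩
    have e : {y | Asymp F.symm x y} = {y | br y x = y} := by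
      ext y
      constructor
      · intro hy
        have h1 : Asymp F.symm x y := hy
        exact hq h.2 _ _ (As.symm (hbr' y x).1) ((As.symm (hbr' y x).2).trans h1)
      · intro hy
        have h1 : br y x = y := hy
        have h2 := (hbr' y x).2
        rw [h1] at h2
        exact h2
    rw [e]
    exact isClosed_eq (hbr.comp (continuous_id.prodMk continuous_const)) continuous_id
  tfae_have 1 → 3 := by
    intro h
    obtain ⟨hbb, br, hbr, hbr'⟩ := key.2 h.2
    refine ⟨hbb, fun x => ?_⟩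
    have e : {y | Asymp F x y} = {y | br x y = y} := by
      ext y
      constructor
      · intro hy
        have h1 : Asymp F x y := hy
        exact hq h.2 _ _ ((As.symm (hbr' x y).1).trans h1) (As.symm (hbr' x y).2)
      · intro hy
        have h1 : br x y = y := hy
        have h2 := (hbr' x y).1
        rw [h1] at h2
        exact h2
    rw [e]
    exact isClosed_eq (hbr.comp (continuous_const.prodMk continuous_id)) continuous_id
  tfae_have 1 → 4 := by
    intro h
    refine ⟨(key.2 h.2).1, fun x y => ?_⟩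
    obtain ⟨w, -, hw⟩ := h.2 x y
    exact (Set.finite_singleton w).subset fun v hv => hw v hv
  tfae_finish

end Pool.Agent.H223.CL
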